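import Pool.Agent.T9h45.LD.Spec

/-!
# Project LD, piece B2: the labels

Author: helper63.
-/

set_option autoImplicit false

namespace Pool.Agent.T9h63.LD

open Finset Classical Pool.T9h45.HY Pool.T9h45.CP Pool.T9h45.LD

variable {V : Type} [Fintype V]

lemma cn_split (P Q : V → Prop) :
    cn P = cn (fun w => P w ∧ Q w) + cn (fun w => P w ∧ ¬ Q w) := by
  unfold cn
  have h := Finset.card_filter_add_card_filter_not (s := univ.filter P) Q
  rw [Finset.filter_filter, Finset.filter_filter] at h
  rw [← h]
  congr! 3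

lemma cn_congr {P Q : V → Prop} (h : ∀ w, P w ↔ Q w) : cn P = cn Q := by
  unfold cn
  congr 1
  ext w
  simp [h]

lemma cn_mono {P Q : V → Prop} (h : ∀ w, P w → Q w) : cn P ≤ cn Q := by
  unfold cn
  apply Finset.card_le_card
  intro w
  simp only [mem_filter, mem_univ, true_and]
  exact h w

lemma cn_zero {P : V → Prop} (h : ∀ w, ¬ P w) : cn P = 0 := by
  unfold cn
  rw [Finset.card_eq_zero]
  ext w
  simp [h]

lemma cn_pos {P : V → Prop} {v : V} (h : P v) : 0 < cn P := by
  unfold cn
  exact Finset.card_pos.2 ⟨v, by simp [h]⟩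

lemma exists_of_cn_pos {P : V → Prop} (h : 0 < cn P) : ∃ v, P v := by
  unfold cn at h
  obtain ⟨v, hv⟩ := Finset.card_pos.1 h
  exact ⟨v, by simpa using hv⟩

/-- the size of the part -/
noncomputable def nP (cl : V → V) (S inn : V → Prop) (v : V) : ℕ :=
  cn fun w => (S w, cl w, inn w) = (S v, cl v, inn v)

/-- the number of single vertices of the part -/
noncomputable def nS (cl : V → V) (S inn : V → Prop) (σ : V → V) (v : V) : ℕ :=
  cn fun w => (S w, cl w, inn w) = (S v, cl v, inn v) ∧ σ w = w

lemma pt_iff (cl : V → V) (S inn : V → Prop) (u v : V) :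
    (S u, cl u, inn u) = (S v, cl v, inn v) ↔ (S u ↔ S v) ∧ cl u = cl v ∧ (inn u ↔ inn v) := by
  simp [Prod.mk.injEq]

/-- the smallest label of the part -/
noncomputable def lo (h : ℕ) (S big inn : V → Prop) (v : V) : ℕ :=
  if inn v then 0 else if big v then th h else if S v then 0 else 4 * th h

variable {G : SimpleGraph V} {cl : V → V} {D h : ℕ} {S big inn : V → Prop} {σ : V → V}

lemma cAB (v : V) : cA S cl v + cB S cl v = cN cl v := by
  unfold cA cB cN
  rw [cn_split (fun w => cl w = cl v) S]
  congr 1
  · exact cn_congr fun w => and_comm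
  · exact cn_congr fun w => and_comm

/-- big, inner -/
lemma sz1 (H : Pre G cl D h S big inn σ) {v : V} (hb : big v) (hi : inn v) :
    nP cl S inn v = 2 * th h ∧ nS cl S inn σ v = 0 := by
  obtain ⟨h1, h2, -, -⟩ := H.bsz v hb
  constructor
  · by_cases hS : S v
    · rw [← h1]
      refine cn_congr fun w => ?_
      rw [pt_iff]
      simp [hS, hi]
      tauto
    · rw [← h2]
      refine cn_congr fun w => ?_
      rw [pt_iff]
      simp [hS, hi]
      tauto
  · refine cn_zero fun w hw => ?_
    obtain ⟨hw1, hw2⟩ := hw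
    rw [pt_iff] at hw1
    obtain ⟨-, h3, h4⟩ := hw1
    exact H.bpair w ((H.bigcl w v h3).2 hb) (h4.2 hi) hw2

/-- not inner: all the vertices are single -/
lemma sing (H : Pre G cl D h S big inn σ) {v : V} (hi : ¬ inn v) :
    nS cl S inn σ v = nP cl S inn v := by
  refine cn_congr fun w => ⟨fun h => h.1, fun h => ⟨h, ?_⟩⟩
  by_contra h5
  have := H.pinn w h5
  rw [pt_iff] at h
  exact hi (h.2.2.1 this)

/-- big, low, not inner -/
lemma sz2 (H : Pre G cl D h S big inn σ) {v : V} (hb : big v) (hi : ¬ inn v) (hS : S v) :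
    nP cl S inn v + 2 * th h = cA S cl v := by
  obtain ⟨h1, h2, -, -⟩ := H.bsz v hb
  rw [← h1]
  unfold cA
  rw [cn_split (fun w => S w ∧ cl w = cl v) inn, add_comm]
  congr 1
  · refine cn_congr fun w => ?_
    tauto
  · refine cn_congr fun w => ?_
    rw [pt_iff]
    simp [hS, hi]
    tauto

/-- big, high, not inner -/
lemma sz3 (H : Pre G cl D h S big inn σ) {v : V} (hb : big v) (hi : ¬ inn v) (hS : ¬ S v) :
    nP cl S inn v + 2 * th h = cB S cl v := by
  obtain ⟨h1, h2, -, -⟩ := H.bsz v hb
  rw [← h2]
  unfold cB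
  rw [cn_split (fun w => ¬ S w ∧ cl w = cl v) inn, add_comm]
  congr 1
  · refine cn_congr fun w => ?_
    tauto
  · refine cn_congr fun w => ?_
    rw [pt_iff]
    simp [hS, hi]
    tauto

/-- small, low -/
lemma sz4 (H : Pre G cl D h S big inn σ) {v : V} (hb : ¬ big v) (hS : S v) :
    nP cl S inn v = cA S cl v := by
  have hi := H.slow v hb hS
  unfold cA
  refine cn_congr fun w => ?_
  rw [pt_iff]
  constructor
  · rintro ⟨h1, h2, -⟩
    exact ⟨h1.2 hS, h2⟩
  · rintro ⟨h1, h2⟩
    refine ⟨by simp [h1, hS], h2, ?_⟩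
    have h3 := H.slow w (fun hw => hb ((H.bigcl w v h2).1 hw)) h1
    simp [h3, hi]

lemma small_inn (H : Pre G cl D h S big inn σ) {v : V} (hb : ¬ big v) :
    ∀ w, (cl w = cl v ∧ inn w) ↔ (¬ S w ∧ cl w = cl v ∧ inn w) := by
  intro w
  constructor
  · rintro ⟨h1, h2⟩
    exact ⟨fun hS => H.slow w (fun hw => hb ((H.bigcl w v h1).1 hw)) hS h2, h1, h2⟩
  · exact fun h => h.2

/-- small, inner -/
lemma sz5 (H : Pre G cl D h S big inn σ) {v : V} (hb : ¬ big v) (hi : inn v) :
    2 * nP cl S inn v = 8 * th h + cPair cl σ v ∧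
      nS cl S inn σ v + cPair cl σ v = nP cl S inn v := by
  have hS : ¬ S v := fun hS => H.slow v hb hS hi
  have h1 : nP cl S inn v = cn (fun w => cl w = cl v ∧ inn w) := by
    refine cn_congr fun w => ?_
    rw [pt_iff, small_inn H hb w]
    simp [hS, hi]
  constructor
  · rw [h1]
    exact H.sinn v hb
  · have h2 := cn_split (fun w => (S w, cl w, inn w) = (S v, cl v, inn v)) (fun w => σ w = w)
    have h3 : cn (fun w => (S w, cl w, inn w) = (S v, cl v, inn v) ∧ ¬ σ w = w) =
        cPair cl σ v := by
      unfold cPair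
      refine cn_congr fun w => ?_
      rw [pt_iff]
      constructor
      · rintro ⟨⟨-, h4, -⟩, h5⟩
        exact ⟨h4, h5⟩
      · rintro ⟨h4, h5⟩
        have h6 := H.pinn w h5
        have h7 := ((small_inn H hb w).1 ⟨h4, h6⟩).1
        exact ⟨⟨by simp [h7, hS], h4, by simp [h6, hi]⟩, h5⟩
    rw [h3] at h2
    exact h2.symm

/-- small, high, not inner -/
lemma sz6 (H : Pre G cl D h S big inn σ) {v : V} (hb : ¬ big v) (hi : ¬ inn v) (hS : ¬ S v) :
    2 * nP cl S inn v + (8 * th h + cPair cl σ v) = 2 * cB S cl v := by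
  rw [← H.sinn v hb]
  have h1 : cB S cl v = cn (fun w => cl w = cl v ∧ inn w) + nP cl S inn v := by
    unfold cB nP
    rw [cn_split (fun w => ¬ S w ∧ cl w = cl v) inn]
    congr 1
    · refine cn_congr fun w => ?_
      rw [small_inn H hb w]
      tauto
    · refine cn_congr fun w => ?_
      rw [pt_iff]
      simp [hS, hi]
      tauto
  rw [h1]
  ring

/-- all parts are large -/
lemma large (H : Pre G cl D h S big inn σ) (hD : 100 * th h ≤ D) (v : V) :
    16 * h ≤ nP cl S inn v := by
  have hth : th h = 8 * h + 8 := rfl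
  have e1 := cAB (S := S) (cl := cl) v
  have e2 := H.hn1 v
  have e3 := H.hn v
  by_cases hb : big v
  · obtain ⟨-, -, b1, b2⟩ := H.bsz v hb
    by_cases hi : inn v
    · have := (sz1 H hb hi).1
      omega
    · by_cases hS : S v
      · have := sz2 H hb hi hS
        omega
      · have := sz3 H hb hi hS
        omega
  · have s1 := H.sA v hb
    have s2 := H.sB v hb
    have s3 := H.spair v hb
    by_cases hi : inn v
    · have := (sz5 H hb hi).1
      omega
    · by_cases hS : S v
      · have := sz4 H hb hS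
        omega
      · have := sz6 H hb hi hS
        omega

/-- the bound for the labels: `t` = the number of labels of the part + the smallest one, doubled -/
lemma top (H : Pre G cl D h S big inn σ) (v : V) :
    (big v → inn v → 2 * lo h S big inn v + nP cl S inn v + nS cl S inn σ v = 2 * th h) ∧
    (big v → ¬ inn v → S v →
      2 * lo h S big inn v + nP cl S inn v + nS cl S inn σ v + 2 * th h = 2 * cA S cl v) ∧
    (big v → ¬ inn v → ¬ S v →
      2 * lo h S big inn v + nP cl S inn v + nS cl S inn σ v + 2 * th h = 2 * cB S cl v) ∧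
    (¬ big v → S v →
      2 * lo h S big inn v + nP cl S inn v + nS cl S inn σ v = 2 * cA S cl v) ∧
    (¬ big v → inn v → 2 * lo h S big inn v + nP cl S inn v + nS cl S inn σ v = 8 * th h) ∧
    (¬ big v → ¬ inn v → ¬ S v →
      2 * lo h S big inn v + nP cl S inn v + nS cl S inn σ v + cPair cl σ v = 2 * cB S cl v) := by
  refine ⟨?_, ?_, ?_, ?_, ?_, ?_⟩
  · intro hb hi
    obtain ⟨h1, h2⟩ := sz1 H hb hi
    simp only [lo, hi, if_true]
    omega
  · intro hb hi hS
    have h1 := sz2 H hb hi hS
    have h2 := sing H hi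
    simp only [lo, hi, hb, if_true, if_false]
    omega
  · intro hb hi hS
    have h1 := sz3 H hb hi hS
    have h2 := sing H hi
    simp only [lo, hi, hb, if_true, if_false]
    omega
  · intro hb hS
    have hi := H.slow v hb hS
    have h1 := sz4 H hb hS
    have h2 := sing H hi
    simp only [lo, hi, hb, hS, if_true, if_false]
    omega
  · intro hb hi
    obtain ⟨h1, h2⟩ := sz5 H hb hi
    simp only [lo, hi, if_true]
    omega
  · intro hb hi hS
    have h1 := sz6 H hb hi hS
    have h2 := sing H hi
    simp only [lo, hi, hb, hS, if_false]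
    omega

/-- the neighbours on the same side -/
lemma own_bound (H : Pre G cl D h S big inn σ) (v : V) :
    cn (fun w => G.Adj v w ∧ (S w ↔ S v)) + 1 ≤ (if S v then cA S cl v else cB S cl v) + h := by
  have h1 := cn_split (fun w => G.Adj v w ∧ (S w ↔ S v)) (fun w => cl w = cl v)
  have h2 : cn (fun w => (G.Adj v w ∧ (S w ↔ S v)) ∧ ¬ cl w = cl v) ≤ h := by
    refine le_trans (cn_mono fun w hw => ?_) (H.hout v)
    exact ⟨hw.1.1, hw.2⟩
  have h3 : cn (fun w => (G.Adj v w ∧ (S w ↔ S v)) ∧ cl w = cl v) + 1 ≤
      cn (fun w => (S w ↔ S v) ∧ cl w = cl v) := by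
    have h4 := cn_split (fun w => (S w ↔ S v) ∧ cl w = cl v) (fun w => G.Adj v w)
    have h5 : 0 < cn (fun w => ((S w ↔ S v) ∧ cl w = cl v) ∧ ¬ G.Adj v w) :=
      cn_pos (v := v) ⟨⟨Iff.rfl, rfl⟩, G.loopless.irrefl v⟩
    have h6 : cn (fun w => ((S w ↔ S v) ∧ cl w = cl v) ∧ G.Adj v w) =
        cn (fun w => (G.Adj v w ∧ (S w ↔ S v)) ∧ cl w = cl v) :=
      cn_congr fun w => by tauto
    omega
  have h7 : cn (fun w => (S w ↔ S v) ∧ cl w = cl v) = if S v then cA S cl v else cB S cl v := by
    by_cases hS : S v
    · simp only [hS, if_true, cA]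
      exact cn_congr fun w => by simp
    · simp only [hS, if_false, cB]
      exact cn_congr fun w => by simp
  omega

lemma cO_le (H : Pre G cl D h S big inn σ) (v : V) : cO G S cl v ≤ h :=
  le_trans (cn_mono fun _ hw => ⟨hw.1, hw.2.1⟩) (H.hout v)

theorem b2 : SB2 := by
  intro hT V _ G cl D h p S big inn σ hD hp H
  have hth : th h = 8 * h + 8 := rfl
  let G' : SimpleGraph V :=
    { Adj := fun u v => G.Adj u v ∧ cl u ≠ cl v ∧ (S u ↔ S v)
      symm := ⟨fun u v huv => ⟨huv.1.symm, huv.2.1.symm, huv.2.2.symm⟩⟩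
      loopless := ⟨fun v hv => hv.2.1 rfl⟩ }
  have hlo : ∀ u v, (S u, cl u, inn u) = (S v, cl v, inn v) →
      lo h S big inn u = lo h S big inn v := by
    intro u v huv
    rw [pt_iff] at huv
    obtain ⟨h1, h2, h3⟩ := huv
    have h4 := H.bigcl u v h2
    unfold lo
    simp only [h1, h3, h4]
  have hpt : ∀ v, (S (σ v), cl (σ v), inn (σ v)) = (S v, cl v, inn v) := by
    intro v
    rw [pt_iff]
    exact ⟨H.Ss v, H.cls v, H.inns v⟩
  have hdeg : ∀ v, cn (fun w => G'.Adj v w ∧ (S w, cl w, inn w) ≠ (S v, cl v, inn v)) ≤ h := by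
    intro v
    refine le_trans (cn_mono fun w hw => ?_) (H.hout v)
    exact ⟨hw.1.1, hw.1.2.1.symm⟩
  obtain ⟨f, f1, f2, f3, f4, f5, f6⟩ := hT V (Prop × V × Prop) G'
    (fun v => (S v, cl v, inn v)) (lo h S big inn) σ h hlo H.invs hpt hdeg
    (fun v => large H hD v)
  have f3' : ∀ v, 2 * f v < 2 * lo h S big inn v + nP cl S inn v + nS cl S inn σ v := f3
  have f6' : ∀ v c, lo h S big inn v ≤ c →
      2 * c < 2 * lo h S big inn v + nP cl S inn v + nS cl S inn σ v →
      ∃ w, (S w, cl w, inn w) = (S v, cl v, inn v) ∧ f w = c := f6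
  -- bounds
  have B1 : ∀ v, big v → inn v → 2 * f v < 2 * th h := by
    intro v hb hi
    have h1 := (top H v).1 hb hi
    have h2 := f3' v
    omega
  have B2 : ∀ v, big v → ¬ inn v → S v → 2 * f v + 2 * th h < 2 * cA S cl v := by
    intro v hb hi hS
    have h1 := (top H v).2.1 hb hi hS
    have h2 := f3' v
    omega
  have B3 : ∀ v, big v → ¬ inn v → ¬ S v → 2 * f v + 2 * th h < 2 * cB S cl v := by
    intro v hb hi hS
    have h1 := (top H v).2.2.1 hb hi hS
    have h2 := f3' v
    omega
  have B4 : ∀ v, ¬ big v → S v → 2 * f v < 2 * cA S cl v := by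
    intro v hb hS
    have h1 := (top H v).2.2.2.1 hb hS
    have h2 := f3' v
    omega
  have B5 : ∀ v, ¬ big v → inn v → 2 * f v < 8 * th h := by
    intro v hb hi
    have h1 := (top H v).2.2.2.2.1 hb hi
    have h2 := f3' v
    omega
  have B6 : ∀ v, ¬ big v → ¬ inn v → ¬ S v → 2 * f v + cPair cl σ v < 2 * cB S cl v := by
    intro v hb hi hS
    have h1 := (top H v).2.2.2.2.2 hb hi hS
    have h2 := f3' v
    omega
  -- the numbers of the class
  have C1 : ∀ v, cA S cl v + cB S cl v = cN cl v := fun v => cAB v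
  have C2 := H.hn1
  have C3 := H.hn
  have C4 : ∀ v, big v → 2 * cA S cl v + 8 * th h ≤ cN cl v ∧
      cN cl v ≤ 2 * cA S cl v + 8 * th h + 1 := fun v hb => (H.bsz v hb).2.2
  have C5 := H.sA
  have C6 := H.sB
  have C7 := H.spair
  -- labels below `lo`
  have kb : ∀ v, big v → ∀ c < th h, (∃ w, cl w = cl v ∧ S w ∧ f w = c) ∧
      ∃ w, cl w = cl v ∧ ¬ S w ∧ f w = c := by
    intro v hb c hc
    obtain ⟨h1, h2, -, -⟩ := H.bsz v hb
    obtain ⟨w1, hw1⟩ := exists_of_cn_pos (V := V)
      (P := fun w => cl w = cl v ∧ S w ∧ inn w) (by omega)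
    obtain ⟨w2, hw2⟩ := exists_of_cn_pos (V := V)
      (P := fun w => cl w = cl v ∧ ¬ S w ∧ inn w) (by omega)
    obtain ⟨a1, a2, a3⟩ := hw1
    obtain ⟨b1, b2, b3⟩ := hw2
    have t1 := (top H w1).1 ((H.bigcl w1 v a1).2 hb) a3
    have t2 := (top H w2).1 ((H.bigcl w2 v b1).2 hb) b3
    have l1 : lo h S big inn w1 = 0 := by simp [lo, a3]
    have l2 : lo h S big inn w2 = 0 := by simp [lo, b3]
    obtain ⟨u1, hu1, e1⟩ := f6' w1 c (by omega) (by omega)
    obtain ⟨u2, hu2, e2⟩ := f6' w2 c (by omega) (by omega)
    rw [pt_iff] at hu1 hu2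
    exact ⟨⟨u1, hu1.2.1.trans a1, hu1.1.2 a2, e1⟩,
      ⟨u2, hu2.2.1.trans b1, fun hS => b2 (hu2.1.1 hS), e2⟩⟩
  have ks : ∀ v, ¬ big v → ∀ c < 4 * th h, ∃ w, cl w = cl v ∧ ¬ S w ∧ f w = c := by
    intro v hb c hc
    have h1 := H.sinn v hb
    obtain ⟨w1, hw1⟩ := exists_of_cn_pos (V := V)
      (P := fun w => cl w = cl v ∧ inn w) (by omega)
    obtain ⟨a1, a2⟩ := hw1
    have hb1 : ¬ big w1 := fun hh => hb ((H.bigcl w1 v a1).1 hh)
    have hS1 : ¬ S w1 := fun hh => H.slow w1 hb1 hh a2
    have t1 := (top H w1).2.2.2.2.1 hb1 a2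
    have l1 : lo h S big inn w1 = 0 := by simp [lo, a2]
    obtain ⟨u1, hu1, e1⟩ := f6' w1 c (by omega) (by omega)
    rw [pt_iff] at hu1
    exact ⟨u1, hu1.2.1.trans a1, fun hS => hS1 (hu1.1.1 hS), e1⟩
  refine ⟨f, ?_, kb⟩
  have hfle : ∀ v, f v ≤ D := by
    intro v
    have c1 := C1 v
    have c2 := C2 v
    have c3 := C3 v
    by_cases hb : big v
    · have c4 := C4 v hb
      by_cases hi : inn v
      · have := B1 v hb hi
        omega
      · by_cases hS : S v
        · have := B2 v hb hi hS
          omega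
        · have := B3 v hb hi hS
          omega
    · have c5 := C5 v hb
      have c6 := C6 v hb
      have c7 := C7 v hb
      by_cases hi : inn v
      · have := B5 v hb hi
        omega
      · by_cases hS : S v
        · have := B4 v hb hS
          omega
        · have := B6 v hb hi hS
          omega
  refine
    { hdeg := H.hdeg
      hout := H.hout
      hn := H.hn
      bigcl := H.bigcl
      invs := H.invs
      cls := H.cls
      adjs := H.adjs
      Ss := H.Ss
      fs := f1
      fle := hfle
      finj := ?_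
      fout := ?_
      fsurj := ?_
      bpair := ?_
      sclique := H.sclique
      ssee := H.ssee
      sI := H.sI
      O1 := ?_
      O2 := ?_
      own := ?_ }
  · -- finj
    intro u v hc hS hf
    by_cases hi : inn u ↔ inn v
    · exact f4 u v ((pt_iff cl S inn u v).2 ⟨hS, hc, hi⟩) hf
    · exfalso
      have hbb := H.bigcl u v hc
      have l1 := f2 u
      have l2 := f2 v
      by_cases hu : inn u
      · have hv : ¬ inn v := fun hh => hi ⟨fun _ => hh, fun _ => hu⟩
        by_cases hb : big u
        · have hb' := hbb.1 hb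
          have := B1 u hb hu
          simp only [lo, hv, hb', if_true, if_false] at l2
          omega
        · have hb' : ¬ big v := fun hh => hb (hbb.2 hh)
          have hSu : ¬ S u := fun hh => H.slow u hb hh hu
          have hSv : ¬ S v := fun hh => hSu (hS.2 hh)
          have := B5 u hb hu
          simp only [lo, hv, hb', hSv, if_false] at l2
          omega
      · have hv : inn v := by
          by_contra hh
          exact hi ⟨fun h1 => absurd h1 hu, fun h1 => absurd h1 hh⟩
        by_cases hb : big u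
        · have hb' := hbb.1 hb
          have := B1 v hb' hv
          simp only [lo, hu, hb, if_true, if_false] at l1
          omega
        · have hb' : ¬ big v := fun hh => hb (hbb.2 hh)
          have hSv : ¬ S v := fun hh => H.slow v hb' hh hv
          have hSu : ¬ S u := fun hh => hSv (hS.1 hh)
          have := B5 v hb' hv
          simp only [lo, hu, hb, hSu, if_false] at l1
          omega
  · -- fout
    intro u v hadj hc hS
    refine f5 u v ⟨hadj, hc, hS⟩ fun hh => ?_
    exact hc ((pt_iff cl S inn u v).1 hh).2.1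
  · -- fsurj
    intro v c hc
    by_cases hl : lo h S big inn v ≤ c
    · obtain ⟨w, hw, e⟩ := f6' v c hl (by have := f3' v; omega)
      rw [pt_iff] at hw
      exact ⟨w, hw.2.1, hw.1, e⟩
    · by_cases hi : inn v
      · simp [lo, hi] at hl
      · by_cases hb : big v
        · simp only [lo, hi, hb, if_true, if_false] at hl
          obtain ⟨⟨w1, a1, a2, a3⟩, ⟨w2, b1, b2, b3⟩⟩ := kb v hb c (by omega)
          by_cases hS : S v
          · exact ⟨w1, a1, by simp [a2, hS], a3⟩
          · exact ⟨w2, b1, by simp [b2, hS], b3⟩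
        · by_cases hS : S v
          · simp [lo, hi, hb, hS] at hl
          · simp only [lo, hi, hb, hS, if_false] at hl
            obtain ⟨w2, b1, b2, b3⟩ := ks v hb c (by omega)
            exact ⟨w2, b1, by simp [b2, hS], b3⟩
  · -- bpair
    intro v hb hf
    by_cases hi : inn v
    · exact H.bpair v hb hi
    · exfalso
      have l1 := f2 v
      simp only [lo, hi, hb, if_true, if_false] at l1
      omega
  · -- O1
    intro x y hx hy hadj hcl hbi
    have o1 := cO_le H x
    have o2 := cO_le H y
    have x1 := C1 x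
    have x2 := C2 x
    have x3 := C3 x
    have y1 := C1 y
    have y2 := C2 y
    have y3 := C3 y
    by_cases hbx : big x
    · have x4 := C4 x hbx
      have xb : 2 * f x ≤ D + h - 10 * th h - 2 := by
        by_cases hi : inn x
        · have := B1 x hbx hi
          omega
        · have := B2 x hbx hi hx
          omega
      by_cases hby : big y
      · have y4 := C4 y hby
        have yb : 2 * f y ≤ D + h + 6 * th h - 1 := by
          by_cases hi : inn y
          · have := B1 y hby hi
            omega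
          · have := B3 y hby hi hy
            omega
        omega
      · have hi : ¬ inn y := hbi.resolve_left hby
        have y5 := C5 y hby
        have y6 := C6 y hby
        have y7 := C7 y hby
        have := B6 y hby hi hy
        omega
    · have x5 := C5 x hbx
      have x6 := C6 x hbx
      have x7 := C7 x hbx
      have xb := B4 x hbx hx
      by_cases hby : big y
      · have y4 := C4 y hby
        have yb : 2 * f y ≤ D + h + 6 * th h - 1 := by
          by_cases hi : inn y
          · have := B1 y hby hi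
            omega
          · have := B3 y hby hi hy
            omega
        omega
      · have hi : ¬ inn y := hbi.resolve_left hby
        have y8 := H.sO x y hbx hby hx hy hi
        have := B6 y hby hi hy
        omega
  · -- O2
    intro x y hx hy hadj hcl hby hi
    have x1 := C1 x
    have x2 := C2 x
    have x3 := C3 x
    have y5 := C5 y hby
    have y7 := C7 y hby
    have yb := B5 y hby hi
    by_cases hbx : big x
    · have x4 := C4 x hbx
      by_cases hi : inn x
      · have := B1 x hbx hi
        omega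
      · have := B2 x hbx hi hx
        omega
    · have x5 := C5 x hbx
      have xb := B4 x hbx hx
      omega
  · -- own
    intro v
    have o1 := own_bound H v
    have x1 := C1 v
    have x2 := C2 v
    have x3 := C3 v
    by_cases hb : big v
    · have x4 := C4 v hb
      by_cases hS : S v
      · simp only [hS, if_true] at o1 ⊢
        omega
      · simp only [hS, if_false] at o1 ⊢
        omega
    · have x5 := C5 v hb
      have x6 := C6 v hb
      have x7 := C7 v hb
      by_cases hS : S v
      · simp only [hS, if_true] at o1 ⊢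
        omega
      · simp only [hS, if_false] at o1 ⊢
        omega

end Pool.Agent.T9h63.LD
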